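import Mathlib
import Pool.Agent.Helper278.MUStmt
import Pool.Agent.Helper278.MUConv

set_option autoImplicit false

namespace Pool.Agent.Results.MP_9e3e49_an.Never

open Pool.Agent.Helper278

universe u v

/-- The negative answer. Matrix ultraproducts exist, and for all nonprincipal ultrafilters `U`, `V`
on `ℕ`, the von Neumann algebra `W*(S^U)` inside `M^U` contains no copy of `M^V`; more generally
every (possibly non-unital) star homomorphism from `M^V` to `W*(S^U)` that scales the trace is
zero. -/
theorem result :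
    (∀ U : Ultrafilter ℕ, MatUltraExists U) ∧
    ∀ U V : Ultrafilter ℕ, (∀ n, {n} ∉ U) → (∀ n, {n} ∉ V) → NoCopies.{u, v} U V := by
  refine ⟨matUltraExists, ?_⟩
  intro U V hU hV Q _ _ _ _ π τ hQ' R _ _ _ _ θ φ hR'
  have hU0 : ∀ᶠ n in (U : Filter ℕ), 0 < n := le_atTop_of_free hU (Filter.eventually_gt_atTop 0)
  have hQ := hQ'.isMatUltra
  have hR := hR'.isMatUltra
  rw [← hQ'.permVN_eq]
  refine ⟨?_, ?_⟩
  · rintro ⟨N, hN, _, e, he⟩
    let ρ : R →⋆ₙₐ[ℂ] Q :=
      { toFun := fun x => (e x : Q)
        map_smul' := fun r x => by rw [map_smul]; rfl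
        map_zero' := by rw [map_zero]; rfl
        map_add' := fun x y => by rw [map_add]; rfl
        map_mul' := fun x y => by rw [map_mul]; rfl
        map_star' := fun x => by rw [map_star]; rfl }
    exact no_hom hU hV hQ hR ρ 1 one_ne_zero (fun x => by rw [one_mul]; exact he x)
      (fun x => hN (e x).2)
  · intro ρ c hρ hW x
    have hT := hQ.trAlg hU0
    by_cases hc : c = 0
    · apply hT.faithful
      show τ (star (ρ x) * ρ x) = 0
      rw [← map_star, ← map_mul, hρ, hc, zero_mul]
    · exact (no_hom hU hV hQ hR ρ c hc hρ hW).elim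

end Pool.Agent.Results.MP_9e3e49_an.Never
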